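import Mathlib
import Pool.Agent.Lib.helper8.IndPoly

set_option autoImplicit false

namespace Pool.Agent.H.MP_b6d645_co

open Finset Pool.Agent.Lib.helper8

section general
variable {T ι : Type} [Fintype T] [DecidableEq T] [Fintype ι] [DecidableEq ι]

/-- blocks are balanced complete bipartite graphs; the `true` sides of the blocks of
kind `true` are joined completely to the `true` sides of the blocks of kind `false` -/
def gr (blk : T → ι) (kind : ι → Bool) : SimpleGraph (T × Bool) where
  Adj u v := (u.2 ≠ v.2 ∧ blk u.1 = blk v.1) ∨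
    (u.2 = true ∧ v.2 = true ∧ kind (blk u.1) ≠ kind (blk v.1))
  symm := ⟨fun u v h => by
    rcases h with ⟨h1, h2⟩ | ⟨h1, h2, h3⟩
    · exact Or.inl ⟨h1.symm, h2.symm⟩
    · exact Or.inr ⟨h2, h1, h3.symm⟩⟩
  loopless := ⟨fun u h => by
    rcases h with ⟨h1, _⟩ | ⟨_, _, h3⟩
    · exact h1 rfl
    · exact h3 rfl⟩

theorem gr_adj (blk : T → ι) (kind : ι → Bool) (u v : T × Bool) :
    (gr blk kind).Adj u v ↔ (u.2 ≠ v.2 ∧ blk u.1 = blk v.1) ∨
    (u.2 = true ∧ v.2 = true ∧ kind (blk u.1) ≠ kind (blk v.1)) := Iff.rfl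

theorem gr_nbr (blk : T → ι) (kind : ι → Bool) (v : T × Bool) :
    (gr blk kind).Adj v (v.1, !v.2) := by
  left
  simp

theorem gr_card (blk : T → ι) (kind : ι → Bool) (s : Finset (T × Bool))
    (h1 : ∀ u ∈ s, ∀ v ∈ s, ¬ (gr blk kind).Adj u v)
    (h2 : ∀ v, v ∉ s → ∃ u ∈ s, (gr blk kind).Adj v u) : s.card = Fintype.card T := by
  rw [← Finset.card_univ]
  apply Finset.card_bij (fun v _ => v.1)
  · simp
  · rintro ⟨a, c⟩ ha ⟨b, d⟩ hb h
    simp only at h
    subst h
    by_contra hne
    apply h1 _ ha _ hb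
    left
    refine ⟨?_, rfl⟩
    intro e
    simp only at e
    exact hne (by rw [e])
  · intro t _
    by_contra hcon
    push Not at hcon
    have n1 : (t, false) ∉ s := fun h => hcon _ h rfl
    have n2 : (t, true) ∉ s := fun h => hcon _ h rfl
    obtain ⟨⟨a, c⟩, ha, e1⟩ := h2 _ n1
    obtain ⟨⟨b, d⟩, hb, e2⟩ := h2 _ n2
    apply h1 _ ha _ hb
    rw [gr_adj] at e1 e2 ⊢
    simp only at e1 e2 ⊢
    rcases e1 with ⟨e1, e1'⟩ | ⟨e1, -⟩
    · have hc : c = true := by
        cases c <;> simp_all
      rcases e2 with ⟨e2, e2'⟩ | ⟨-, e2, e2'⟩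
      · left
        refine ⟨by rw [hc]; exact e2, by rw [← e1', e2']⟩
      · right
        exact ⟨hc, e2, by rw [← e1']; exact e2'⟩
    · simp at e1

theorem card_side (blk : T → ι) (i : ι) (c : Bool) :
    (univ.filter (fun v : T × Bool => blk v.1 = i ∧ v.2 = c)).card =
      (univ.filter (fun t : T => blk t = i)).card := by
  apply Finset.card_bij (fun v _ => v.1)
  · intro v hv
    simp only [Finset.mem_filter, Finset.mem_univ, true_and] at hv ⊢
    exact hv.1
  · rintro ⟨a, c1⟩ ha ⟨b, d⟩ hb h
    simp only [Finset.mem_filter, Finset.mem_univ, true_and] at ha hb h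
    rw [h, ha.2, hb.2]
  · intro t ht
    simp only [Finset.mem_filter, Finset.mem_univ, true_and] at ht
    exact ⟨(t, c), by simp [ht], rfl⟩

theorem ip_side (blk : T → ι) (kind : ι → Bool) (x : ℕ) (i : ι) (c : Bool) :
    ip (gr blk kind) x (univ.filter (fun v : T × Bool => blk v.1 = i ∧ v.2 = c)) =
      (1 + x) ^ (univ.filter (fun t : T => blk t = i)).card := by
  rw [ip_edgeless, card_side]
  intro u hu v hv h
  simp only [Finset.mem_filter, Finset.mem_univ, true_and] at hu hv
  rw [gr_adj, hu.1, hv.1, hu.2, hv.2] at h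
  simp at h

theorem ip_block (blk : T → ι) (kind : ι → Bool) (x : ℕ) (i : ι) :
    ip (gr blk kind) x (univ.filter (fun v : T × Bool => blk v.1 = i)) =
      2 * (1 + x) ^ (univ.filter (fun t : T => blk t = i)).card - 1 := by
  have h := ip_join (gr blk kind) x (univ.filter (fun v : T × Bool => blk v.1 = i))
    (univ.filter (fun v : T × Bool => blk v.1 = i ∧ v.2 = true))
    (univ.filter (fun v : T × Bool => blk v.1 = i ∧ v.2 = false)) (by
      intro u hu v hv
      simp only [Finset.mem_filter, Finset.mem_univ, true_and] at hu hv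
      left
      rw [hu.1, hv.1, hu.2, hv.2]
      simp)
  have e0 : univ.filter (fun v : T × Bool => blk v.1 = i) \
      (univ.filter (fun v : T × Bool => blk v.1 = i ∧ v.2 = true) ∪
        univ.filter (fun v : T × Bool => blk v.1 = i ∧ v.2 = false)) = ∅ := by
    ext ⟨a, c⟩
    cases c <;> simp
  have e1 : univ.filter (fun v : T × Bool => blk v.1 = i) \
      univ.filter (fun v : T × Bool => blk v.1 = i ∧ v.2 = true) =
        univ.filter (fun v : T × Bool => blk v.1 = i ∧ v.2 = false) := by
    ext ⟨a, c⟩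
    cases c <;> simp
  have e2 : univ.filter (fun v : T × Bool => blk v.1 = i) \
      univ.filter (fun v : T × Bool => blk v.1 = i ∧ v.2 = false) =
        univ.filter (fun v : T × Bool => blk v.1 = i ∧ v.2 = true) := by
    ext ⟨a, c⟩
    cases c <;> simp
  rw [e0, e1, e2, ip_side, ip_side, ip_empty] at h
  omega

theorem ip_half (blk : T → ι) (kind : ι → Bool) (x : ℕ) (b : Bool) :
    ip (gr blk kind) x
      (univ \ univ.filter (fun v : T × Bool => v.2 = true ∧ kind (blk v.1) = b)) =
      ∏ i, if kind i = b then (1 + x) ^ (univ.filter (fun t : T => blk t = i)).card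
        else 2 * (1 + x) ^ (univ.filter (fun t : T => blk t = i)).card - 1 := by
  rw [ip_blocks _ _ _ (fun v : T × Bool => blk v.1)]
  · apply Finset.prod_congr rfl
    intro i _
    split_ifs with hi
    · rw [← ip_side blk kind x i false]
      congr 1
      ext ⟨a, c⟩
      cases c
      · simp
      · simp only [Finset.mem_filter, Finset.mem_sdiff, Finset.mem_univ, true_and]
        constructor
        · rintro ⟨h1, h2⟩
          exact absurd (h2 ▸ hi) h1
        · simp
    · rw [← ip_block blk kind x i]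
      congr 1
      ext ⟨a, c⟩
      simp only [Finset.mem_filter, Finset.mem_sdiff, Finset.mem_univ, true_and]
      constructor
      · exact fun h => h.2
      · intro h
        exact ⟨fun h' => hi (h ▸ h'.2), h⟩
  · intro u hu v hv h
    simp only [Finset.mem_filter, Finset.mem_sdiff, Finset.mem_univ, true_and] at hu hv
    rcases h with h | ⟨h1, h2, h3⟩
    · exact h.2
    · exfalso
      have a1 : kind (blk u.1) ≠ b := fun e => hu ⟨h1, e⟩
      have a2 : kind (blk v.1) ≠ b := fun e => hv ⟨h2, e⟩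
      revert a1 a2 h3
      cases kind (blk u.1) <;> cases kind (blk v.1) <;> cases b <;> simp

theorem ip_all (blk : T → ι) (kind : ι → Bool) (x : ℕ) :
    ip (gr blk kind) x univ =
      (∏ i, if kind i = true then (1 + x) ^ (univ.filter (fun t : T => blk t = i)).card
        else 2 * (1 + x) ^ (univ.filter (fun t : T => blk t = i)).card - 1) +
      (∏ i, if kind i = false then (1 + x) ^ (univ.filter (fun t : T => blk t = i)).card
        else 2 * (1 + x) ^ (univ.filter (fun t : T => blk t = i)).card - 1) -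
      (1 + x) ^ Fintype.card T := by
  have h := ip_join (gr blk kind) x univ
    (univ.filter (fun v : T × Bool => v.2 = true ∧ kind (blk v.1) = true))
    (univ.filter (fun v : T × Bool => v.2 = true ∧ kind (blk v.1) = false)) (by
      intro u hu v hv
      simp only [Finset.mem_filter, Finset.mem_univ, true_and] at hu hv
      right
      rw [hu.1, hv.1, hu.2, hv.2]
      simp)
  have e0 : univ \ (univ.filter (fun v : T × Bool => v.2 = true ∧ kind (blk v.1) = true) ∪
      univ.filter (fun v : T × Bool => v.2 = true ∧ kind (blk v.1) = false)) =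
      univ.filter (fun v : T × Bool => v.2 = false) := by
    ext ⟨a, c⟩
    cases c <;> simp
  rw [ip_half, ip_half, e0, ip_edgeless _ _ (univ.filter (fun v : T × Bool => v.2 = false))] at h
  · have hc : (univ.filter (fun v : T × Bool => v.2 = false)).card = Fintype.card T := by
      rw [← Finset.card_univ]
      apply Finset.card_bij (fun v _ => v.1)
      · simp
      · rintro ⟨a, c1⟩ ha ⟨b, d⟩ hb h
        simp only [Finset.mem_filter, Finset.mem_univ, true_and] at ha hb h
        rw [h, ha, hb]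
      · intro t _
        exact ⟨(t, false), by simp, rfl⟩
    rw [hc] at h
    omega
  · intro u hu v hv h
    simp only [Finset.mem_filter, Finset.mem_univ, true_and] at hu hv
    rw [gr_adj, hu, hv] at h
    simp at h

end general

/-- 150 blocks with sides of size 4 and 245 blocks with sides of size 1 -/
def blk0 : (Fin 150 × Fin 4) ⊕ Fin 245 → Fin 150 ⊕ Fin 245 := Sum.map Prod.fst id

def G0 : SimpleGraph (((Fin 150 × Fin 4) ⊕ Fin 245) × Bool) := gr blk0 Sum.isLeft

theorem card_l (i : Fin 150) : (univ.filter (fun t => blk0 t = Sum.inl i)).card = 4 := by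
  have : univ.filter (fun t => blk0 t = Sum.inl i) =
      univ.image (fun r : Fin 4 => (Sum.inl (i, r) : (Fin 150 × Fin 4) ⊕ Fin 245)) := by
    ext t
    rcases t with ⟨a, r⟩ | b
    · simp [blk0, eq_comm]
    · simp [blk0]
  rw [this, Finset.card_image_of_injective]
  · simp
  · intro a b h
    simpa using h

theorem card_r (i : Fin 245) : (univ.filter (fun t => blk0 t = Sum.inr i)).card = 1 := by
  have : univ.filter (fun t => blk0 t = Sum.inr i) = {Sum.inr i} := by
    ext t
    rcases t with ⟨a, r⟩ | b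
    · simp [blk0]
    · simp [blk0]
  rw [this, Finset.card_singleton]

theorem ip_G0 (x : ℕ) : ip G0 x univ =
    ((1 + x) ^ 4) ^ 150 * (2 * (1 + x) ^ 1 - 1) ^ 245 +
      (2 * (1 + x) ^ 4 - 1) ^ 150 * ((1 + x) ^ 1) ^ 245 - (1 + x) ^ 845 := by
  unfold G0
  rw [ip_all, Fintype.prod_sum_type, Fintype.prod_sum_type]
  simp only [card_l, card_r, Sum.isLeft_inl, Sum.isLeft_inr, Finset.prod_const, Finset.card_univ,
    Fintype.card_fin, Fintype.card_sum, Fintype.card_prod, if_true, Bool.false_eq_true,
    Bool.true_eq_false, if_false]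

def val (x k : ℕ) : ℕ := (((1 + x) ^ 4) ^ 150 * (2 * (1 + x) ^ 1 - 1) ^ 245 +
      (2 * (1 + x) ^ 4 - 1) ^ 150 * ((1 + x) ^ 1) ^ 245 - (1 + x) ^ 845) / x ^ k % x

theorem dip : val (2 ^ 1691) 444 < val (2 ^ 1691) 443 ∧
    val (2 ^ 1691) 444 < val (2 ^ 1691) 445 := by
  decide +kernel

theorem card_V : Fintype.card (((Fin 150 × Fin 4) ⊕ Fin 245) × Bool) = 1690 := by
  simp

theorem cnt_G0 (k : ℕ) :
    {s : Finset (((Fin 150 × Fin 4) ⊕ Fin 245) × Bool) |
      G0.IsIndepSet (s : Set _) ∧ s.card = k}.ncard = val (2 ^ 1691) k := by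
  rw [ncard_indep_eq_digit G0 (2 ^ 1691) k, ip_G0]
  · rfl
  · rw [card_V]
    exact Nat.pow_lt_pow_right (by norm_num) (by norm_num)

theorem main : ∃ G : SimpleGraph (Fin 1690), (∀ v, ∃ w, G.Adj v w) ∧
    (∀ s : Finset (Fin 1690), G.IsIndepSet (s : Set _) →
      (∀ v, v ∉ s → ¬ G.IsIndepSet (insert v (s : Set _))) → s.card = 845) ∧
    {s : Finset (Fin 1690) | G.IsIndepSet (s : Set _) ∧ s.card = 444}.ncard <
      {s : Finset (Fin 1690) | G.IsIndepSet (s : Set _) ∧ s.card = 443}.ncard ∧
    {s : Finset (Fin 1690) | G.IsIndepSet (s : Set _) ∧ s.card = 444}.ncard <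
      {s : Finset (Fin 1690) | G.IsIndepSet (s : Set _) ∧ s.card = 445}.ncard := by
  obtain ⟨e⟩ : Nonempty (Fin 1690 ≃ (((Fin 150 × Fin 4) ⊕ Fin 245) × Bool)) :=
    ⟨(Fintype.equivFinOfCardEq card_V).symm⟩
  refine ⟨G0.comap e, ?_, ?_, ?_⟩
  · intro v
    refine ⟨e.symm ((e v).1, !(e v).2), ?_⟩
    simp only [SimpleGraph.comap_adj, Equiv.apply_symm_apply]
    exact gr_nbr _ _ _
  · intro s h1 h2
    have := gr_card blk0 Sum.isLeft (s.map e.toEmbedding) ?_ ?_
    · simpa using this
    · rw [indep_iff] at h1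
      intro u hu v hv
      obtain ⟨a, ha, rfl⟩ := Finset.mem_map.1 hu
      obtain ⟨b, hb, rfl⟩ := Finset.mem_map.1 hv
      exact h1 a ha b hb
    · intro v hv
      have hv' : e.symm v ∉ s := by
        intro h
        exact hv (Finset.mem_map.2 ⟨_, h, by simp⟩)
      by_contra hcon
      push Not at hcon
      apply h2 _ hv'
      rw [← Finset.coe_insert, indep_iff]
      rw [indep_iff] at h1
      have key : ∀ b ∈ s, ¬ (G0.comap e).Adj (e.symm v) b := by
        intro b hb h
        apply hcon (e b) (Finset.mem_map.2 ⟨b, hb, rfl⟩)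
        simpa [G0] using h
      intro a ha b hb
      rcases Finset.mem_insert.1 ha with ha | ha <;> rcases Finset.mem_insert.1 hb with hb | hb
      · rw [ha, hb]; exact SimpleGraph.irrefl _
      · rw [ha]; exact key b hb
      · rw [hb]; exact fun e => key a ha e.symm
      · exact h1 a ha b hb
  · rw [ncard_indep_comap, ncard_indep_comap, ncard_indep_comap, cnt_G0, cnt_G0, cnt_G0]
    exact dip

end Pool.Agent.H.MP_b6d645_co
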